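import Pool.Agent.Helper8.KT.Sheet

/-! Row MC of the sheet KT: McShane extensions through Katetov functions. -/

set_option autoImplicit false

namespace Pool.Agent.Helper8.KT

theorem stMC (hAP : ST_AP) : ST_MC := by
  intro d hd f D hD n G hG hlow
  let A : (ℕ → ℝ) → Set ℝ := fun y => {s : ℝ | ∃ (η : ℕ → ℝ) (r : ℝ), Kat d η ∧
    (∃ j ≤ n, η j ≤ D) ∧ (∀ j ≤ n, |y j - η j| ≤ r) ∧ s = G η + r}
  have hne : ∀ y, (A y).Nonempty := by
    intro y
    refine ⟨G (d 0) + ∑ j ∈ Finset.range (n + 1), |y j - d 0 j|, d 0,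
      ∑ j ∈ Finset.range (n + 1), |y j - d 0 j|, ?_, ⟨0, Nat.zero_le n, ?_⟩, ?_, rfl⟩
    · intro i j
      constructor
      · rw [abs_le]
        have h1 := hd.tri 0 i j
        have h2 := hd.tri 0 j i
        have h3 := hd.symm i j
        constructor <;> linarith
      · have h1 := hd.tri i 0 j
        have h2 := hd.symm i 0
        linarith
    · rw [hd.self]
      exact hD
    · intro j hj
      exact Finset.single_le_sum (f := fun j => |y j - d 0 j|) (fun i _ => abs_nonneg _)
        (Finset.mem_range.2 (Nat.lt_succ_of_le hj))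
  have hlb : ∀ y, ∀ s ∈ A y, G y ≤ s := by
    rintro y s ⟨η, r, _, _, h3, rfl⟩
    have h := (abs_le.1 (hG y η r h3)).2
    linarith
  have hbdd : ∀ y, BddBelow (A y) := fun y => ⟨G y, fun s hs => hlb y s hs⟩
  have hstep : ∀ (y y' : ℕ → ℝ) (r : ℝ), (∀ j ≤ n, |y j - y' j| ≤ r) →
      sInf (A y) ≤ sInf (A y') + r := by
    intro y y' r hr
    have h1 : sInf (A y) - r ≤ sInf (A y') := by
      apply le_csInf (hne y')
      rintro s ⟨η, t, h1, h2, h3, rfl⟩
      have h4 : G η + (t + r) ∈ A y := by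
        refine ⟨η, t + r, h1, h2, fun j hj => ?_, rfl⟩
        have h5 := abs_le.1 (hr j hj)
        have h6 := abs_le.1 (h3 j hj)
        rw [abs_le]
        constructor <;> linarith [h5.1, h5.2, h6.1, h6.2]
      have h7 := csInf_le (hbdd y) h4
      linarith
    linarith
  refine ⟨fun y => sInf (A y), ?_, ?_, ?_⟩
  · intro y y' r hr
    rw [abs_le]
    have h1 := hstep y y' r hr
    have h2 := hstep y' y r (fun j hj => by rw [abs_sub_comm]; exact hr j hj)
    constructor <;> linarith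
  · intro y hy hj
    apply le_antisymm
    · have h1 : G y ∈ A y := by
        refine ⟨y, 0, hy, hj, fun j _ => ?_, ?_⟩
        · rw [sub_self, abs_zero]
        · rw [add_zero]
      exact csInf_le (hbdd y) h1
    · exact le_csInf (hne y) (fun s hs => hlb y s hs)
  · intro y hy j
    apply le_csInf (hne y)
    rintro s ⟨η, r, h1, ⟨i, hi, hiD⟩, h3, rfl⟩
    obtain ⟨w, hw1, hw2, hw3⟩ := hAP d hd n y η r hy h1 h3
    have h4 := hlow w hw1 ⟨i, hi, by rw [hw2 i hi]; exact hiD⟩ j
    have h5 : |G w - G η| ≤ 0 := hG w η 0 (fun k hk => by rw [hw2 k hk, sub_self, abs_zero])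
    have h6 := (abs_le.1 h5).2
    have h7 := abs_le.1 (hw3 j)
    linarith [h7.1, h7.2]

end Pool.Agent.Helper8.KT
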